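import Pool.Agent.H7.GT.Stmts

/-!
Row SWL of the board gt7 (MP_fd41b2_co): balanced sizes are best.
-/

set_option autoImplicit false

open Finset

namespace Pool.GT7

open Pool.Agent.H23.KT Pool.Agent.H46.KW Pool.KQ

theorem SWL_prod {M : Type} [CommMonoid M] {b : ℕ} (n : Fin b → ℕ) (f : ℕ → M) (i j : Fin b)
    (hij : i ≠ j) (x y : ℕ) :
    (∏ l, f (Function.update (Function.update n i x) j y l) =
      f x * (f y * ∏ l ∈ (univ.erase i).erase j, f (n l))) ∧
    (∏ l, f (n l) = f (n i) * (f (n j) * ∏ l ∈ (univ.erase i).erase j, f (n l))) := by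
  have hj : j ∈ (univ : Finset (Fin b)).erase i := Finset.mem_erase.2 ⟨hij.symm, Finset.mem_univ j⟩
  constructor
  · rw [← Finset.mul_prod_erase univ _ (Finset.mem_univ i), ← Finset.mul_prod_erase _ _ hj]
    rw [Function.update_of_ne hij, Function.update_self, Function.update_self]
    congr 2
    refine Finset.prod_congr rfl fun l hl => ?_
    rw [Finset.mem_erase, Finset.mem_erase] at hl
    rw [Function.update_of_ne hl.1, Function.update_of_ne hl.2.1]
  · rw [← Finset.mul_prod_erase univ _ (Finset.mem_univ i), ← Finset.mul_prod_erase _ _ hj]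

theorem SWL_sum {M : Type} [AddCommMonoid M] {b : ℕ} (n : Fin b → ℕ) (f : ℕ → M) (i j : Fin b)
    (hij : i ≠ j) (x y : ℕ) :
    (∑ l, f (Function.update (Function.update n i x) j y l) =
      f x + (f y + ∑ l ∈ (univ.erase i).erase j, f (n l))) ∧
    (∑ l, f (n l) = f (n i) + (f (n j) + ∑ l ∈ (univ.erase i).erase j, f (n l))) := by
  have hj : j ∈ (univ : Finset (Fin b)).erase i := Finset.mem_erase.2 ⟨hij.symm, Finset.mem_univ j⟩
  constructor
  · rw [← Finset.add_sum_erase univ _ (Finset.mem_univ i), ← Finset.add_sum_erase _ _ hj]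
    rw [Function.update_of_ne hij, Function.update_self, Function.update_self]
    congr 2
    refine Finset.sum_congr rfl fun l hl => ?_
    rw [Finset.mem_erase, Finset.mem_erase] at hl
    rw [Function.update_of_ne hl.1, Function.update_of_ne hl.2.1]
  · rw [← Finset.add_sum_erase univ _ (Finset.mem_univ i), ← Finset.add_sum_erase _ _ hj]

theorem SWL_thm (h1 : ESTStmt) : SWLStmt := by
  obtain ⟨-, e2, e3, -⟩ := h1
  intro p w a s lo hi c hs hla hah hc n
  generalize hm : ∑ i, (n i) ^ 2 = m
  induction m using Nat.strong_induction_on generalizing n with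
  | _ m ih =>
    intro hsum hbox
    by_cases hex : ∃ i j, n j + 2 ≤ n i
    · obtain ⟨i, j, hij⟩ := hex
      have hne : i ≠ j := by
        rintro rfl
        omega
      set n' : Fin (p + 3) → ℕ := Function.update (Function.update n i (n i - 1)) j (n j + 1)
        with hn'
      obtain ⟨s1, s2⟩ := SWL_sum n (fun t => t) i j hne (n i - 1) (n j + 1)
      obtain ⟨q1, q2⟩ := SWL_sum n (fun t => t ^ 2) i j hne (n i - 1) (n j + 1)
      obtain ⟨p1, p2⟩ := SWL_prod n (fun t => (t : ℝ)) i j hne (n i - 1) (n j + 1)
      rw [← hn'] at s1 q1 p1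
      have hsum' : ∑ l, n' l = (p + 3) * a + s := by
        have h5 : ∑ l, n' l = ∑ l, n l := by
          rw [s1, s2]
          omega
        rw [h5, hsum]
      have hbox' : ∀ l, lo ≤ n' l ∧ n' l ≤ hi := by
        intro l
        have hbi := hbox i
        have hbj := hbox j
        by_cases hlj : l = j
        · rw [hlj, hn', Function.update_self]
          omega
        · by_cases hli : l = i
          · rw [hli, hn', Function.update_of_ne hne, Function.update_self]
            omega
          · rw [hn', Function.update_of_ne hlj, Function.update_of_ne hli]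
            exact hbox l
      have hsq : ∑ l, (n' l) ^ 2 < m := by
        rw [← hm, q1, q2]
        obtain ⟨t, ht⟩ : ∃ t, n i = n j + 2 + t := ⟨n i - (n j + 2), by omega⟩
        have h6 : n i - 1 = n j + 1 + t := by omega
        rw [h6, ht]
        nlinarith
      have h7 := ih _ hsq n' rfl hsum' hbox'
      refine le_trans ?_ h7
      have h8 := e3 p w lo n i j hij (fun l => (hbox l).1)
      rw [← hn'] at h8
      have h9 : (es n (w + 2) : ℝ) + ((n i : ℝ) - n j - 1) * ((p + 1).choose w * (lo : ℝ) ^ w) ≤
          es n' (w + 2) := by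
        have h10 : ((n i - n j - 1 : ℕ) : ℝ) = (n i : ℝ) - n j - 1 := by
          rw [Nat.cast_sub (by omega), Nat.cast_sub (by omega)]
          norm_num
        rw [← h10]
        exact_mod_cast h8
      set R : ℝ := ∏ l ∈ (univ.erase i).erase j, (n l : ℝ) with hR
      have hR0 : 0 ≤ R := Finset.prod_nonneg fun l _ => Nat.cast_nonneg _
      have hR1 : R ≤ (hi : ℝ) ^ (p + 1) := by
        have hcard : ((univ.erase i).erase j : Finset (Fin (p + 3))).card = p + 1 := by
          rw [Finset.card_erase_of_mem (Finset.mem_erase.2 ⟨hne.symm, Finset.mem_univ j⟩),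
            Finset.card_erase_of_mem (Finset.mem_univ i), Finset.card_univ, Fintype.card_fin]
          omega
        rw [hR, ← hcard, ← Finset.prod_const]
        exact Finset.prod_le_prod (fun l _ => Nat.cast_nonneg _)
          (fun l _ => by exact_mod_cast (hbox l).2)
      have hp1 : ∏ l, (n' l : ℝ) = ((n i : ℝ) - 1) * (((n j : ℝ) + 1) * R) := by
        rw [p1]
        have : ((n i - 1 : ℕ) : ℝ) = (n i : ℝ) - 1 := by
          rw [Nat.cast_sub (by omega)]
          norm_num
        rw [this]
        push_cast
        rfl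
      have hp2 : ∏ l, (n l : ℝ) = (n i : ℝ) * ((n j : ℝ) * R) := p2
      rw [hp1, hp2]
      have hd : (0 : ℝ) ≤ (n i : ℝ) - n j - 1 := by
        have : ((n j + 2 : ℕ) : ℝ) ≤ n i := by exact_mod_cast hij
        push_cast at this
        linarith
      have hkey : 0 ≤ (p + 1).choose w * (lo : ℝ) ^ w + c * R := by
        by_cases hc0 : 0 ≤ c
        · positivity
        · push Not at hc0
          have : -c * R ≤ -c * (hi : ℝ) ^ (p + 1) :=
            mul_le_mul_of_nonneg_left hR1 (by linarith)
          linarith
      have h11 := mul_nonneg hd hkey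
      nlinarith
    · push Not at hex
      have hall : ∀ i, n i = a ∨ n i = a + 1 := by
        intro i
        by_contra hcon
        push Not at hcon
        rcases Nat.lt_or_ge (n i) a with hlt | hge
        · have h5 : ∀ l, n l ≤ a := fun l => by
            have := hex l i
            omega
          have h6 : ∑ l, n l < ∑ _l : Fin (p + 3), a :=
            Finset.sum_lt_sum (fun l _ => h5 l) ⟨i, Finset.mem_univ i, hlt⟩
          rw [Finset.sum_const, Finset.card_univ, Fintype.card_fin, smul_eq_mul] at h6
          omega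
        · have h5 : ∀ l, a + 1 ≤ n l := fun l => by
            have := hex i l
            omega
          have h6 : ∑ _l : Fin (p + 3), (a + 1) < ∑ l, n l :=
            Finset.sum_lt_sum (fun l _ => h5 l) ⟨i, Finset.mem_univ i, by omega⟩
          rw [Finset.sum_const, Finset.card_univ, Fintype.card_fin, smul_eq_mul, mul_add] at h6
          omega
      obtain ⟨h5, h6⟩ := e2 n (w + 2) a s hall hsum
      rw [h5]
      have h7 : ∏ i, (n i : ℝ) = (a : ℝ) ^ (p + 3 - s) * ((a : ℝ) + 1) ^ s := by
        exact_mod_cast h6
      rw [h7]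

end Pool.GT7
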